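import Pool.Agent.helper68.GB.Spec
import Pool.Agent.helper68.BP.PWL

/-! Row DEU of project GB: upper sums. -/

set_option autoImplicit false

namespace Pool.Agent.GB

open Pool.Agent.helper58.DC Pool.Agent.DI Pool.Agent.GR Pool.Agent.OB Pool.Agent.DR Pool.Agent.FI Pool.Agent.FI3 Pool.Agent.FI4 Pool.Agent.LE Pool.Agent.BR

theorem DEU_cen {G : Type} [Group G] {q : ℕ} (S : Subgroup G) (t : Fin q → G) :
    S ≤ Subgroup.centralizer (Set.range t) ↔ ∀ i, t i ∈ cz S := by
  constructor
  · intro h i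
    refine Subgroup.mem_centralizer_iff.2 fun s hs => ?_
    exact (Subgroup.mem_centralizer_iff.1 (h hs) (t i) ⟨i, rfl⟩).symm
  · intro h s hs
    refine Subgroup.mem_centralizer_iff.2 ?_
    rintro _ ⟨i, rfl⟩
    exact (Subgroup.mem_centralizer_iff.1 (h i) s hs).symm

/-- The sum of a function against a power, as a sum over tuples. -/
theorem DEU_tup {G : Type} [Group G] [Fintype G] (a F : G → ℂ) (q : ℕ) :
    ∑ᶠ x, cvp a q x * F x = ∑ t : Fin q → G, (∏ i, a (t i)) * F (List.ofFn t).prod := by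
  classical
  rw [finsum_eq_sum_of_fintype]
  have h1 : ∀ x, cvp a q x * F x = ∑ t : Fin q → G, if tpr t = x then (∏ i, a (t i)) * F x else 0 := by
    intro x
    rw [TUP, Finset.sum_mul]
    refine Finset.sum_congr rfl fun t _ => ?_
    split_ifs
    · rfl
    · rw [zero_mul]
  rw [Finset.sum_congr rfl fun x _ => h1 x, Finset.sum_comm]
  refine Finset.sum_congr rfl fun t _ => ?_
  rw [Finset.sum_ite_eq Finset.univ (tpr t), if_pos (Finset.mem_univ _)]
  rfl

theorem DEU (hCJB : CJB_stmt) (hREP : REP_stmt) : DEU_stmt := by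
  classical
  intro p M hM G _ _ P Q e hP hQP q F
  have : Fintype G := Fintype.ofFinite G
  have h3 : ∀ S : Subgroup G, S ≤ sfn e ↔ Inv S e :=
    fun S => ⟨fun h s hs => h hs, fun h s hs => h s hs⟩
  have hInvQ : Inv Q e := (hCJB p M hM G 1 (cz Q) e).2.2.2.1 Q hP.bb
  have hv : ∀ x, x ∉ cz Q → e x = 0 := ((hREP p M hM G (cz Q)).2.2.2.1 e hP.bb).2.1
  refine ⟨?_, ?_, h3⟩
  · intro S hS
    rw [DEU_tup, finsum_mem_eq_finite_toFinset_sum _ (Set.toFinite {t : Fin q → G | S ≤ stb P Q e t})]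
    have hsub : (Set.toFinite {t : Fin q → G | S ≤ stb P Q e t}).toFinset ⊆ Finset.univ := Finset.subset_univ _
    have hin : ∀ t : Fin q → G, t ∈ (Set.toFinite {t : Fin q → G | S ≤ stb P Q e t}).toFinset ↔ ∀ i, t i ∈ cz S := by
      intro t
      rw [Set.Finite.mem_toFinset]
      show S ≤ stb P Q e t ↔ _
      rw [← DEU_cen]
      unfold stb
      rw [le_inf_iff]
      exact ⟨fun h => h.2, fun h => ⟨hS, h⟩⟩
    rw [← Finset.sum_subset hsub (f := fun t : Fin q → G => (∏ i, rsk (cz S) e (t i)) * F (List.ofFn t).prod)]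
    · refine Finset.sum_congr rfl fun t ht => ?_
      have ht' := (hin t).1 ht
      have hp : ∏ i, rsk (cz S) e (t i) = ∏ i, e (t i) :=
        Finset.prod_congr rfl fun i _ => by
          unfold rsk
          rw [if_pos (ht' i)]
      rw [hp]
    · intro t _ ht
      rw [hin t, not_forall] at ht
      obtain ⟨i, hi⟩ := ht
      have hz : ∏ i, rsk (cz S) e (t i) = 0 := by
        refine Finset.prod_eq_zero (Finset.mem_univ i) ?_
        unfold rsk
        rw [if_neg hi]
      rw [hz, zero_mul]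
  · intro t ht
    have hi : ∀ i, t i ∈ cz Q := by
      intro i
      by_contra hc
      exact ht (Finset.prod_eq_zero (Finset.mem_univ i) (hv _ hc))
    unfold stb
    refine le_inf (le_inf (le_inf hQP ?_) ((h3 Q).2 hInvQ)) ((DEU_cen Q t).2 hi)
    exact Subgroup.le_normalizer

end Pool.Agent.GB
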